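import Pool.Agent.Helper60.PF.Defs

/-!
Packet SUMMATION for `MP_ef0af8_co`: summing the dyadic (here: linear) richness bounds.
-/

set_option autoImplicit false

namespace Pool.Agent.Helper52.PF

open Pool.Agent.Helper60.PF

lemma tele (K' : ℝ) (hK' : 0 ≤ K') (m0 : ℕ) (h0 : 1 ≤ m0) (e : ℕ → ℝ)
    (he : ∀ j : ℕ, 2 ≤ j → e j * (j : ℝ) ^ 3 ≤ K') (J : ℕ) (hJ : m0 ≤ J) :
    ∑ j ∈ Finset.Ioc m0 J, e j ≤ K' * (1 / (m0 : ℝ) ^ 2 - 1 / (J : ℝ) ^ 2) := by
  induction J, hJ using Nat.le_induction with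
  | base => simp
  | succ J hJ ih =>
    rw [← Finset.insert_Ioc_right_eq_Ioc_add_one (by omega), Finset.sum_insert (by simp)]
    have hJ1 : (1 : ℝ) ≤ J := by exact_mod_cast (le_trans h0 hJ)
    have h1 := he (J + 1) (by omega)
    push_cast at h1 ⊢
    have hp : (0 : ℝ) < ((J : ℝ) + 1) ^ 3 := by positivity
    have h2 : e (J + 1) ≤ K' / ((J : ℝ) + 1) ^ 3 := by
      rw [le_div_iff₀ hp]; exact h1
    have h3 : 1 / ((J : ℝ) + 1) ^ 3 ≤ 1 / (J : ℝ) ^ 2 - 1 / ((J : ℝ) + 1) ^ 2 := by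
      have hJ0 : (0 : ℝ) < J := by linarith
      rw [div_sub_div _ _ (by positivity) (by positivity), div_le_div_iff₀ (by positivity)
        (by positivity)]
      have : 0 ≤ ((J : ℝ) + 1) ^ 2 * ((J : ℝ) ^ 2 + 3 * J + 1) := by positivity
      nlinarith [this]
    have h4 : K' / ((J : ℝ) + 1) ^ 3 ≤ K' * (1 / (J : ℝ) ^ 2 - 1 / ((J : ℝ) + 1) ^ 2) := by
      rw [div_eq_mul_one_div]
      exact mul_le_mul_of_nonneg_left h3 hK'
    linarith

open Classical in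
theorem summation : Summation := by
  intro ι G f K n hK hn h
  rcases Nat.eq_zero_or_pos G.card with hG | hG
  · rw [Finset.card_eq_zero] at hG
    subst hG
    simp
  rcases hn.eq_or_lt with hn0 | hn0
  · subst hn0
    have h1 : ∀ m ∈ G, (f m : ℝ) ≤ 1 := by
      intro m hm
      by_contra hc
      push Not at hc
      have h2 : 2 ≤ f m := by
        have : (1 : ℕ) < f m := by exact_mod_cast hc
        omega
      have h3 := h (f m) h2
      have h4 : 0 < (G.filter (fun m' => f m ≤ f m')).card :=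
        Finset.card_pos.2 ⟨m, by simp [hm]⟩
      have h5 : (0 : ℝ) < ((G.filter (fun m' => f m ≤ f m')).card : ℝ) * (f m : ℝ) ^ 3 := by
        have : (0 : ℝ) < f m := by exact_mod_cast (by omega : 0 < f m)
        have h6 : (0 : ℝ) < ((G.filter (fun m' => f m ≤ f m')).card : ℝ) := by exact_mod_cast h4
        positivity
      have h7 : K * (0 : ℝ) ^ 2 = 0 := by ring
      linarith
    calc ∑ m ∈ G, (f m : ℝ) ≤ ∑ m ∈ G, (1 : ℝ) := Finset.sum_le_sum h1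
      _ = G.card := by simp
      _ ≤ _ := by
        have : (0 : ℝ) ≤ (K + 1) * ((0 : ℝ) ^ (2 / 3 : ℝ) * (G.card : ℝ) ^ (2 / 3 : ℝ)) := by
          positivity
        linarith
  -- main case
  set e : ℝ := (G.card : ℝ) with hedef
  have he : 0 < e := by rw [hedef]; exact_mod_cast hG
  set x : ℝ := n ^ (1 / 3 : ℝ) with hx
  set y : ℝ := e ^ (1 / 3 : ℝ) with hy
  have hx0 : 0 < x := Real.rpow_pos_of_pos hn0 _
  have hy0 : 0 < y := Real.rpow_pos_of_pos he _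
  have hx3 : x ^ 3 = n := by
    rw [hx, ← Real.rpow_natCast, ← Real.rpow_mul hn]; norm_num
  have hy3 : y ^ 3 = e := by
    rw [hy, ← Real.rpow_natCast, ← Real.rpow_mul he.le]; norm_num
  have hx2 : n ^ (2 / 3 : ℝ) = x ^ 2 := by
    rw [hx, ← Real.rpow_natCast, ← Real.rpow_mul hn]; norm_num
  have hy2 : e ^ (2 / 3 : ℝ) = y ^ 2 := by
    rw [hy, ← Real.rpow_natCast, ← Real.rpow_mul he.le]; norm_num
  rw [hx2, hy2]
  set q : ℝ := x ^ 2 / y with hq
  have hq0 : 0 < q := by positivity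
  set m0 : ℕ := ⌈q⌉₊ with hm0
  have hm1 : 1 ≤ m0 := Nat.one_le_ceil_iff.2 hq0
  have hm2 : q ≤ m0 := Nat.le_ceil q
  have hm3 : (m0 : ℝ) ≤ q + 1 := (Nat.ceil_lt_add_one hq0.le).le
  set J : ℕ := max m0 (G.sup f) with hJ
  have hJ0 : m0 ≤ J := le_max_left _ _
  have hJf : ∀ m ∈ G, f m ≤ J := fun m hm => le_trans (Finset.le_sup hm) (le_max_right _ _)
  have hf : ∀ m ∈ G, (f m : ℝ) ≤ m0 + ∑ j ∈ Finset.Ioc m0 J, (if j ≤ f m then (1 : ℝ) else 0) := by
    intro m hm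
    rw [Finset.sum_ite, Finset.sum_const_zero, add_zero, Finset.sum_const, nsmul_eq_mul, mul_one]
    have h1 : (Finset.Ioc m0 J).filter (fun j => j ≤ f m) = Finset.Ioc m0 (f m) := by
      ext j
      have := hJf m hm
      simp only [Finset.mem_filter, Finset.mem_Ioc]
      constructor
      · rintro ⟨⟨a, b⟩, c⟩; exact ⟨a, c⟩
      · rintro ⟨a, c⟩; exact ⟨⟨a, by omega⟩, c⟩
    rw [h1, Nat.card_Ioc]
    have : f m ≤ m0 + (f m - m0) := by omega
    exact_mod_cast this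
  have hsum : ∑ m ∈ G, (f m : ℝ) ≤ e * m0 +
      ∑ j ∈ Finset.Ioc m0 J, ((G.filter (fun m => j ≤ f m)).card : ℝ) := by
    calc ∑ m ∈ G, (f m : ℝ)
        ≤ ∑ m ∈ G, (m0 + ∑ j ∈ Finset.Ioc m0 J, (if j ≤ f m then (1 : ℝ) else 0)) :=
          Finset.sum_le_sum hf
      _ = e * m0 + ∑ j ∈ Finset.Ioc m0 J, ((G.filter (fun m => j ≤ f m)).card : ℝ) := by
        rw [Finset.sum_add_distrib, Finset.sum_const, nsmul_eq_mul, Finset.sum_comm]
        congr 1
        refine Finset.sum_congr rfl fun j _ => ?_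
        rw [Finset.sum_boole]
  have hK2 : 0 ≤ K * n ^ 2 := by positivity
  have htele := tele (K * n ^ 2) hK2 m0 hm1
    (fun j => ((G.filter (fun m => j ≤ f m)).card : ℝ)) h J hJ0
  have hm0' : (0 : ℝ) < m0 := by exact_mod_cast hm1
  have h2 : K * n ^ 2 * (1 / (m0 : ℝ) ^ 2 - 1 / (J : ℝ) ^ 2) ≤ K * n ^ 2 * (1 / q ^ 2) := by
    apply mul_le_mul_of_nonneg_left _ hK2
    have h3 : 1 / (m0 : ℝ) ^ 2 ≤ 1 / q ^ 2 := by
      apply one_div_le_one_div_of_le (by positivity)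
      exact pow_le_pow_left₀ hq0.le hm2 2
    have h4 : 0 ≤ 1 / (J : ℝ) ^ 2 := by positivity
    linarith
  have h5 : K * n ^ 2 * (1 / q ^ 2) = K * (x ^ 2 * y ^ 2) := by
    rw [hq, ← hx3]
    field_simp
  have h6 : e * m0 ≤ e * (q + 1) := mul_le_mul_of_nonneg_left hm3 he.le
  have h7 : e * (q + 1) = x ^ 2 * y ^ 2 + e := by
    rw [hq, ← hy3]
    field_simp
  calc ∑ m ∈ G, (f m : ℝ) ≤ e * m0 +
      ∑ j ∈ Finset.Ioc m0 J, ((G.filter (fun m => j ≤ f m)).card : ℝ) := hsum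
    _ ≤ (x ^ 2 * y ^ 2 + e) + K * (x ^ 2 * y ^ 2) := by
      have := htele.trans (h2.trans h5.le)
      linarith
    _ = (K + 1) * (x ^ 2 * y ^ 2) + e := by ring

end Pool.Agent.Helper52.PF
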